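import Pool.Agent.Sokolov.Main

/-! # Under `MA` Sokolov compact spaces with `p(C_p(X)) = ω` are metrizable: the final step -/

universe u

open Set Topology

namespace Pool.Agent.Sokolov

open Pool.Agent.CpFU

theorem metrizable_of_ma (hMA : MAω₁.{u}) (X : Type u) [TopologicalSpace X] [CompactSpace X]
    [T2Space X] (hX : IsSokolov X) (hp : PointFiniteCellularityCp X) :
    TopologicalSpace.MetrizableSpace X := by
  classical
  by_contra hm
  obtain ⟨I, _, _, hI1, hI2, hI3⟩ := exists_omega_one.{u}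
  obtain ⟨f, y, hf, hfn, hfy, hff, hff', hfix⟩ := exists_maps hX hm I hI1
  -- functions separating the points of the ranges
  have hsep : ∀ β : I, ∃ hh : ℕ → X → ℝ, (∀ k, Continuous (hh k)) ∧
      ∀ a ∈ range (f β), ∀ b ∈ range (f β), a ≠ b → ∃ k, hh k a ≠ hh k b := by
    intro β
    obtain ⟨H, hH, hHc, hHs⟩ := exists_functions (range (f β)) (hfn β)
    obtain ⟨e, he⟩ := (hH.insert (fun _ => (0 : ℝ))).exists_eq_range ⟨_, mem_insert _ _⟩
    refine ⟨e, ?_, ?_⟩
    · intro k
      have h1 : e k ∈ insert (fun _ => (0 : ℝ)) H := he ▸ ⟨k, rfl⟩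
      rcases h1 with h1 | h1
      · rw [h1]; exact continuous_const
      · exact hHc _ h1
    · intro a ha b hb hab
      obtain ⟨h, hh, hne⟩ := hHs a ha b hb hab
      have h1 : h ∈ range e := he ▸ mem_insert_of_mem _ hh
      obtain ⟨k, rfl⟩ := h1
      exact ⟨k, hne⟩
  choose hh hhc hhs using hsep
  let J : Type u := I × (ℕ × ℕ)
  let g : J → X → ℝ := fun j x => hh j.1 j.2.1 (f j.1 x)
  have hg : ∀ j, Continuous (g j) := fun j => (hhc j.1 j.2.1).comp (hf j.1)
  let d : I → X × X := fun i => (y i, f i (y i))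
  let U : J → Set (X × X) := fun j => {p | 1 / ((j.2.2 : ℝ) + 1) < |g j p.1 - g j p.2|}
  let C : J → Set (X × X) := fun j => {p | 1 / ((j.2.2 : ℝ) + 1) ≤ |g j p.1 - g j p.2|}
  let O : J → Set (X × X) := fun j => {p | 0 < |g j p.1 - g j p.2|}
  have hgc : ∀ j, Continuous (fun p : X × X => |g j p.1 - g j p.2|) := fun j =>
    (((hg j).comp continuous_fst).sub ((hg j).comp continuous_snd)).abs
  have hcard : Cardinal.mk (I ⊕ J) ≤ Cardinal.aleph 1 := by
    have h0 : Cardinal.aleph0.{u} ≤ Cardinal.aleph 1 := Cardinal.aleph0_le_aleph 1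
    have h1 : Cardinal.mk J ≤ Cardinal.aleph 1 := by
      have h2 : Cardinal.mk J = Cardinal.mk I * Cardinal.aleph0 := by
        simp [J, Cardinal.mk_prod]
      rw [h2, hI3]
      exact Cardinal.mul_le_of_le h0 le_rfl h0
    rw [Cardinal.mk_sum, Cardinal.lift_id, Cardinal.lift_id]
    exact Cardinal.add_le_of_le h0 hI3.le h1
  have hUC : ∀ j, U j ⊆ C j := by
    intro j p hp
    have h1 : 1 / ((j.2.2 : ℝ) + 1) < |g j p.1 - g j p.2| := hp
    exact h1.le
  have hCO : ∀ j, C j ⊆ O j := by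
    intro j p hp
    have h1 : 1 / ((j.2.2 : ℝ) + 1) ≤ |g j p.1 - g j p.2| := hp
    have h2 : (0 : ℝ) < 1 / ((j.2.2 : ℝ) + 1) := by positivity
    exact h2.trans_le h1
  obtain ⟨E, hE, hEU⟩ := exists_thin hMA (fun m => tight_pow hX.countablyTight m) I hI1 hI2 J hcard
    d U C O hUC (fun j => isClosed_le continuous_const (hgc j))
    hCO (fun j => isOpen_lt continuous_const (hgc j))
    (fun j => j.1) (by
      intro j i hji hmem
      have h1 : g j (y i) = g j (f i (y i)) := by
        simp only [g]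
        rw [hff' j.1 i hji]
      have h2 : (0 : ℝ) < |g j (y i) - g j (f i (y i))| := hmem
      rw [h1, sub_self, abs_zero] at h2
      exact lt_irrefl _ h2)
  -- the family of open sets
  let W : I → Set {g : X → ℝ // Continuous g} := fun i => {g | 1 < |g.1 (y i) - g.1 (f i (y i))|}
  have hWo : ∀ i, IsOpen (W i) := by
    intro i
    have h1 : ∀ x : X, Continuous (fun g : {g : X → ℝ // Continuous g} => g.1 x) := fun x =>
      (continuous_apply x).comp continuous_subtype_val
    exact isOpen_lt continuous_const (((h1 _).sub (h1 _)).abs)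
  have hWn : ∀ i, (W i).Nonempty := by
    intro i
    obtain ⟨h, h0, h1, -⟩ := exists_continuous_zero_one_of_isClosed (isClosed_singleton (x := y i))
      (isClosed_singleton (x := f i (y i))) (by simpa using (hfy i).symm)
    refine ⟨⟨fun x => 2 * h x, by fun_prop⟩, ?_⟩
    have h2 : h (y i) = 0 := h0 rfl
    have h3 : h (f i (y i)) = 1 := h1 rfl
    change 1 < |2 * h (y i) - 2 * h (f i (y i))|
    rw [h2, h3]
    norm_num
  have hfin : ∀ g : {g : X → ℝ // Continuous g}, {i | i ∈ E ∧ g ∈ W i}.Finite := by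
    intro φ
    by_contra hinf
    let e := Set.Infinite.natEmbedding _ hinf
    obtain ⟨γ, hγ⟩ := exists_upper hI1 hI2 (range (fun n => (e n).1)) (countable_range _)
    have hγ' : ∀ n, (e n).1 < γ := fun n => hγ _ ⟨n, rfl⟩
    obtain ⟨p, hp⟩ := exists_clusterPt_of_compactSpace
      (Filter.map (fun n => d (e n).1) Filter.atTop)
    have hpcl : ∀ S : Set (X × X), IsClosed S → (∀ n, d (e n).1 ∈ S) → p ∈ S := by
      intro S hS hmem
      have h1 : p ∈ closure S := by
        rw [mem_closure_iff_clusterPt]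
        refine ClusterPt.mono hp ?_
        rw [Filter.le_principal_iff, Filter.mem_map]
        exact Filter.Eventually.of_forall hmem
      rwa [hS.closure_eq] at h1
    have h1 : 1 ≤ |φ.1 p.1 - φ.1 p.2| := by
      refine hpcl {p | 1 ≤ |φ.1 p.1 - φ.1 p.2|} ?_ ?_
      · exact isClosed_le continuous_const
          (((φ.2.comp continuous_fst).sub (φ.2.comp continuous_snd)).abs)
      · intro n
        have h2 : 1 < |φ.1 (y (e n).1) - φ.1 (f (e n).1 (y (e n).1))| := (e n).2.2
        exact h2.le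
    have hne : p.1 ≠ p.2 := by
      intro h
      rw [h, sub_self, abs_zero] at h1
      norm_num at h1
    have hran : p.1 ∈ range (f γ) ∧ p.2 ∈ range (f γ) := by
      refine hpcl ({p | p.1 ∈ range (f γ) ∧ p.2 ∈ range (f γ)}) ?_ ?_
      · have h2 : IsClosed (range (f γ)) := (isCompact_range (hf γ)).isClosed
        exact (h2.preimage continuous_fst).inter (h2.preimage continuous_snd)
      · intro n
        exact ⟨⟨y (e n).1, hfix _ _ (hγ' n)⟩, ⟨f (e n).1 (y (e n).1), hff _ _ (hγ' n) _⟩⟩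
    obtain ⟨δ, hδ⟩ := exists_upper hI1 hI2 {γ} (countable_singleton γ)
    have hγδ : γ < δ := hδ γ rfl
    have h2 : f δ p.1 = p.1 := by
      obtain ⟨x, hx⟩ := hran.1
      rw [← hx]
      exact hff γ δ hγδ x
    have h3 : f δ p.2 = p.2 := by
      obtain ⟨x, hx⟩ := hran.2
      rw [← hx]
      exact hff γ δ hγδ x
    obtain ⟨k, hk⟩ := hhs δ p.1 ⟨_, h2⟩ p.2 ⟨_, h3⟩ hne
    obtain ⟨m, hm⟩ := exists_nat_one_div_lt (abs_pos.2 (sub_ne_zero.2 hk))
    have h4 : p ∈ U (δ, (k, m)) := by
      change 1 / ((m : ℝ) + 1) < |hh δ k (f δ p.1) - hh δ k (f δ p.2)|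
      rw [h2, h3]
      exact hm
    have hUo : IsOpen (U (δ, (k, m))) := isOpen_lt continuous_const (hgc _)
    have h5 : ∃ᶠ n in Filter.atTop, d (e n).1 ∈ U (δ, (k, m)) := by
      have := mapClusterPt_iff_frequently.1 hp (U (δ, (k, m))) (hUo.mem_nhds h4)
      exact this
    have h6 : {n : ℕ | d (e n).1 ∈ U (δ, (k, m))}.Finite := by
      have h7 := (hEU (δ, (k, m))).preimage (f := fun n : ℕ => (e n).1) (by
        intro a _ b _ hab
        exact e.injective (Subtype.ext hab))
      refine h7.subset ?_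
      intro n hn
      exact ⟨(e n).2.1, hn⟩
    rw [Filter.frequently_atTop] at h5
    obtain ⟨N, hN⟩ := h6.bddAbove
    obtain ⟨n, hn1, hn2⟩ := h5 (N + 1)
    have := hN hn2
    omega
  have hcount : (W '' E).Countable := by
    apply hp
    · rintro _ ⟨i, -, rfl⟩
      exact ⟨hWo i, hWn i⟩
    · intro φ
      refine ((hfin φ).image W).subset ?_
      rintro V ⟨⟨i, hi, rfl⟩, hφ⟩
      exact ⟨i, ⟨hi, hφ⟩, rfl⟩
  apply hE
  have hcov : E ⊆ ⋃ V ∈ W '' E, {i | i ∈ E ∧ W i = V} := by
    intro i hi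
    exact mem_iUnion₂.2 ⟨W i, ⟨i, hi, rfl⟩, hi, rfl⟩
  refine (hcount.biUnion ?_).mono hcov
  rintro _ ⟨i, -, rfl⟩
  obtain ⟨φ, hφ⟩ := hWn i
  refine (Set.Finite.subset (hfin φ) ?_).countable
  rintro j ⟨hj, hjW⟩
  exact ⟨hj, hjW ▸ hφ⟩

end Pool.Agent.Sokolov
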