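import Pool.Agent.CpFU.Defs

/-! # Sokolov compact spaces: definitions (as in the frozen statement `S14295`) -/

universe u

open Set

namespace Pool.Agent.Sokolov

/-- The subspace `S` of `X` has a countable network. -/
def CountableNetwork {X : Type u} [TopologicalSpace X] (S : Set X) : Prop :=
  ∃ 𝒩 : Set (Set X), 𝒩.Countable ∧ (∀ N ∈ 𝒩, N ⊆ S) ∧
    ∀ x ∈ S, ∀ V : Set X, IsOpen V → x ∈ V → ∃ N ∈ 𝒩, x ∈ N ∧ N ⊆ V

/-- Sokolov spaces: for all closed `F n ⊆ X ^ n` there is a continuous `f : X → X` whose range has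
countable network weight and which preserves all `F n`. -/
def IsSokolov (X : Type u) [TopologicalSpace X] : Prop :=
  ∀ F : (n : ℕ) → Set (Fin n → X), (∀ n, IsClosed (F n)) →
    ∃ f : X → X, Continuous f ∧ CountableNetwork (Set.range f) ∧
      ∀ n, ∀ x ∈ F n, (fun i => f (x i)) ∈ F n

/-- Countable point-finite cellularity of `C_p(X)`: every point-finite family of nonempty open
subsets of `C_p(X)` is countable. -/
def PointFiniteCellularityCp (X : Type u) [TopologicalSpace X] : Prop :=
  ∀ 𝒰 : Set (Set {g : X → ℝ // Continuous g}),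
    (∀ U ∈ 𝒰, IsOpen U ∧ U.Nonempty) →
    (∀ g : {g : X → ℝ // Continuous g}, {U | U ∈ 𝒰 ∧ g ∈ U}.Finite) →
    𝒰.Countable

end Pool.Agent.Sokolov
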