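import Pool.Agent.Sokolov.Defs
import Pool.Agent.CpFU.Prod

/-! # Basic facts on Sokolov compact spaces -/

universe u v

open Set Topology

namespace Pool.Agent.Sokolov

open Pool.Agent.CpFU

/-- Transfinite recursion of length `I` for a relation that can always be satisfied against
countable sets. -/
theorem exists_rec {T : Type v} (R : T → T → Prop)
    (h : ∀ N : Set T, N.Countable → ∃ t, ∀ s ∈ N, R s t) (I : Type u) [LinearOrder I]
    [WellFoundedLT I] (hI : ∀ i : I, (Iio i).Countable) :
    ∃ t : I → T, ∀ j i, j < i → R (t j) (t i) := by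
  classical
  have h' : ∀ N : Set T, ∃ t, N.Countable → ∀ s ∈ N, R s t := by
    intro N
    by_cases hN : N.Countable
    · obtain ⟨t, ht⟩ := h N hN
      exact ⟨t, fun _ => ht⟩
    · obtain ⟨t, -⟩ := h ∅ countable_empty
      exact ⟨t, fun h => absurd h hN⟩
  choose F hF using h'
  let t : I → T := WellFounded.fix (wellFounded_lt (α := I))
    (fun i rec => F {y | ∃ j, ∃ h : j < i, y = rec j h})
  have ht : ∀ i, t i = F {y | ∃ j, ∃ _ : j < i, y = t j} := fun i => WellFounded.fix_eq _ _ i
  refine ⟨t, fun j i hji => ?_⟩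
  rw [ht i]
  refine hF _ ?_ (t j) ⟨j, hji, rfl⟩
  refine ((hI i).image t).mono ?_
  rintro _ ⟨k, hk, rfl⟩
  exact ⟨k, hk, rfl⟩

variable {X : Type u} [TopologicalSpace X]

/-- Countably many closed subsets of the square can be preserved. -/
theorem IsSokolov.two (hX : IsSokolov X) (ℰ : Set (Set (X × X))) (hc : ℰ.Countable)
    (hcl : ∀ E ∈ ℰ, IsClosed E) :
    ∃ f : X → X, Continuous f ∧ CountableNetwork (Set.range f) ∧
      ∀ E ∈ ℰ, ∀ x y, (x, y) ∈ E → (f x, f y) ∈ E := by
  rcases ℰ.eq_empty_or_nonempty with rfl | hne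
  · obtain ⟨f, h1, h2, -⟩ := hX (fun _ => univ) (fun _ => isClosed_univ)
    exact ⟨f, h1, h2, fun E hE => absurd hE (notMem_empty E)⟩
  · obtain ⟨e, he⟩ := hc.exists_eq_range hne
    let F : (n : ℕ) → Set (Fin n → X) := fun n => match n with
      | 0 => univ
      | 1 => univ
      | (k + 2) => {v | (v 0, v 1) ∈ e k}
    obtain ⟨f, h1, h2, h3⟩ := hX F (by
      intro n
      match n with
      | 0 => exact isClosed_univ
      | 1 => exact isClosed_univ
      | (k + 2) =>
        have h4 : IsClosed (e k) := hcl _ (he ▸ ⟨k, rfl⟩)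
        exact h4.preimage (by fun_prop : Continuous (fun v : Fin (k + 2) → X => (v 0, v 1))))
    refine ⟨f, h1, h2, ?_⟩
    intro E hE x y hxy
    rw [he] at hE
    obtain ⟨k, rfl⟩ := hE
    have h5 := h3 (k + 2) (fun i => if i = 0 then x else y) (by
      change ((if (0 : Fin (k + 2)) = 0 then x else y), (if (1 : Fin (k + 2)) = 0 then x else y))
        ∈ e k
      simpa using hxy)
    have h6 : ((fun i : Fin (k + 2) => f (if i = 0 then x else y)) 0,
      (fun i : Fin (k + 2) => f (if i = 0 then x else y)) 1) ∈ e k := h5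
    simpa using h6

/-- A countable family of functions separating the points of a subspace with a countable
network. -/
theorem exists_functions [CompactSpace X] [T2Space X] (S : Set X) (hS : CountableNetwork S) :
    ∃ H : Set (X → ℝ), H.Countable ∧ (∀ h ∈ H, Continuous h) ∧
      ∀ a ∈ S, ∀ b ∈ S, a ≠ b → ∃ h ∈ H, h a ≠ h b := by
  classical
  obtain ⟨𝒩, hc, -, hnet⟩ := hS
  have h1 : ∀ p : Set X × Set X, ∃ h : X → ℝ, Continuous h ∧
      (Disjoint (closure p.1) (closure p.2) → (∀ x ∈ p.1, h x = 0) ∧ ∀ x ∈ p.2, h x = 1) := by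
    intro p
    by_cases hd : Disjoint (closure p.1) (closure p.2)
    · obtain ⟨h, h2, h3, -⟩ := exists_continuous_zero_one_of_isClosed isClosed_closure
        isClosed_closure hd
      exact ⟨h, h.continuous, fun _ => ⟨fun x hx => h2 (subset_closure hx),
        fun x hx => h3 (subset_closure hx)⟩⟩
    · exact ⟨fun _ => 0, continuous_const, fun h => absurd h hd⟩
  choose h hh1 hh2 using h1
  refine ⟨h '' (𝒩 ×ˢ 𝒩), (hc.prod hc).image h, ?_, ?_⟩
  · rintro _ ⟨p, -, rfl⟩
    exact hh1 p
  · intro a ha b hb hab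
    obtain ⟨U, V, hU, hV, haU, hbV, hUV⟩ := t2_separation hab
    obtain ⟨U', hU', hU'c, hU'U⟩ := exists_mem_nhds_isClosed_subset (hU.mem_nhds haU)
    obtain ⟨V', hV', hV'c, hV'V⟩ := exists_mem_nhds_isClosed_subset (hV.mem_nhds hbV)
    obtain ⟨N, hN, haN, hNU⟩ := hnet a ha (interior U') isOpen_interior
      (mem_interior_iff_mem_nhds.2 hU')
    obtain ⟨M, hM, hbM, hMV⟩ := hnet b hb (interior V') isOpen_interior
      (mem_interior_iff_mem_nhds.2 hV')
    have hd : Disjoint (closure N) (closure M) := by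
      refine Disjoint.mono ?_ ?_ hUV
      · exact (closure_minimal (hNU.trans interior_subset) hU'c).trans hU'U
      · exact (closure_minimal (hMV.trans interior_subset) hV'c).trans hV'V
    obtain ⟨h3, h4⟩ := hh2 (N, M) hd
    refine ⟨h (N, M), ⟨(N, M), ⟨hN, hM⟩, rfl⟩, ?_⟩
    rw [h3 a haN, h4 b hbM]
    norm_num

/-- A compact Hausdorff space with a countable network is metrizable. -/
theorem metrizable_of_network [CompactSpace X] [T2Space X]
    (h : CountableNetwork (univ : Set X)) : TopologicalSpace.MetrizableSpace X := by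
  obtain ⟨H, hH, hHc, hsep⟩ := exists_functions univ h
  have : Countable H := hH.to_subtype
  let e : X → (H → ℝ) := fun x g => g.1 x
  have he : Continuous e := continuous_pi_iff.2 (fun g => hHc g.1 g.2)
  have hinj : Function.Injective e := by
    intro a b hab
    by_contra hne
    obtain ⟨g, hg, hg'⟩ := hsep a (mem_univ a) b (mem_univ b) hne
    exact hg' (congrFun hab ⟨g, hg⟩)
  exact (he.isClosedEmbedding hinj).isEmbedding.metrizableSpace

/-- A countable dense subset of a subspace with a countable network. -/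
theorem exists_dense (S : Set X) (hS : CountableNetwork S) (T : Set X) (hT : T ⊆ S) :
    ∃ D ⊆ T, D.Countable ∧ T ⊆ closure D := by
  classical
  obtain ⟨𝒩, hc, -, hnet⟩ := hS
  let c : Set X → Set X := fun N => if h : (N ∩ T).Nonempty then {h.some} else ∅
  refine ⟨⋃ N ∈ 𝒩, c N, ?_, ?_, ?_⟩
  · refine iUnion₂_subset (fun N _ => ?_)
    simp only [c]
    split
    · rename_i h
      exact singleton_subset_iff.2 h.some_mem.2
    · exact empty_subset _
  · refine hc.biUnion (fun N _ => ?_)
    simp only [c]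
    split
    · exact countable_singleton _
    · exact countable_empty
  · intro x hx
    rw [mem_closure_iff]
    intro V hV hxV
    obtain ⟨N, hN, hxN, hNV⟩ := hnet x (hT hx) V hV hxV
    have hne : (N ∩ T).Nonempty := ⟨x, hxN, hx⟩
    refine ⟨hne.some, hNV hne.some_mem.1, ?_⟩
    refine mem_iUnion₂.2 ⟨N, hN, ?_⟩
    simp only [c, dif_pos hne]
    rfl

end Pool.Agent.Sokolov
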