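import Pool.Agent.Sokolov.Tight
import Pool.Agent.CpFU.Hom

/-! # Under `MA` Sokolov compact spaces with `p(C_p(X)) = ω` are metrizable -/

universe u

open Set Topology

namespace Pool.Agent.Sokolov

open Pool.Agent.CpFU

variable {X : Type u} [TopologicalSpace X] [CompactSpace X] [T2Space X]

/-- The transfinite sequence of Sokolov maps. -/
theorem exists_maps (hX : IsSokolov X) (hm : ¬ TopologicalSpace.MetrizableSpace X)
    (I : Type u) [LinearOrder I] [WellFoundedLT I] (hI : ∀ i : I, (Iio i).Countable) :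
    ∃ (f : I → X → X) (y : I → X), (∀ i, Continuous (f i)) ∧
      (∀ i, CountableNetwork (range (f i))) ∧ (∀ i, f i (y i) ≠ y i) ∧
      (∀ j i, j < i → ∀ x, f i (f j x) = f j x) ∧
      (∀ j i, j < i → ∀ x, f j (f i x) = f j x) ∧
      (∀ j i, j < i → f i (y j) = y j) := by
  classical
  let T : Type u := {t : (X → X) × X // Continuous t.1 ∧ CountableNetwork (range t.1) ∧
    t.1 t.2 ≠ t.2}
  obtain ⟨t, ht⟩ := exists_rec (T := T) (fun s t => (∀ x, t.1.1 (s.1.1 x) = s.1.1 x) ∧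
    (∀ x, s.1.1 (t.1.1 x) = s.1.1 x) ∧ t.1.1 s.1.2 = s.1.2) (by
    intro N hN
    have hdense : ∀ s : T, ∃ D ⊆ range s.1.1, D.Countable ∧ range s.1.1 ⊆ closure D :=
      fun s => exists_dense _ s.2.2.1 _ Subset.rfl
    choose D hD1 hD2 hD3 using hdense
    let pts : Set X := (⋃ s ∈ N, D s) ∪ (fun s : T => s.1.2) '' N
    have hpts : pts.Countable := (hN.biUnion (fun s _ => hD2 s)).union (hN.image _)
    let ℰ : Set (Set (X × X)) := ((fun d : X => Prod.fst ⁻¹' {d}) '' pts) ∪
      ((fun s : T => {p : X × X | s.1.1 p.1 = p.2}) '' N)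
    obtain ⟨f, hf, hfn, hfE⟩ := hX.two ℰ ((hpts.image _).union (hN.image _)) (by
      rintro E (⟨d, -, rfl⟩ | ⟨s, -, rfl⟩)
      · exact isClosed_singleton.preimage continuous_fst
      · exact isClosed_eq (s.2.1.comp continuous_fst) continuous_snd)
    have hfix : ∀ d ∈ pts, f d = d := by
      intro d hd
      exact hfE _ (Or.inl ⟨d, hd, rfl⟩) d d rfl
    have hgr : ∀ s ∈ N, ∀ x, s.1.1 (f x) = f (s.1.1 x) := by
      intro s hs x
      exact hfE _ (Or.inr ⟨s, hs, rfl⟩) x (s.1.1 x) rfl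
    have hran : ∀ s ∈ N, ∀ x, f (s.1.1 x) = s.1.1 x := by
      intro s hs x
      have hcl : IsClosed {z | f z = z} := isClosed_eq hf continuous_id
      have h1 : D s ⊆ {z | f z = z} := fun d hd =>
        hfix d (Or.inl (mem_iUnion₂.2 ⟨s, hs, hd⟩))
      exact closure_minimal h1 hcl (hD3 s ⟨x, rfl⟩)
    have hne : ∃ y, f y ≠ y := by
      by_contra hcon
      push Not at hcon
      apply hm
      apply metrizable_of_network
      have : range f = univ := eq_univ_of_forall (fun y => ⟨y, hcon y⟩)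
      rwa [this] at hfn
    obtain ⟨y, hy⟩ := hne
    refine ⟨⟨(f, y), hf, hfn, hy⟩, ?_⟩
    intro s hs
    refine ⟨hran s hs, fun x => ?_, hfix _ (Or.inr ⟨s, hs, rfl⟩)⟩
    change s.1.1 (f x) = s.1.1 x
    rw [hgr s hs x, hran s hs x]) I hI
  exact ⟨fun i => (t i).1.1, fun i => (t i).1.2, fun i => (t i).2.1, fun i => (t i).2.2.1,
    fun i => (t i).2.2.2, fun j i hji => (ht j i hji).1, fun j i hji => (ht j i hji).2.1,
    fun j i hji => (ht j i hji).2.2⟩

/-- Conditions: a finite set of indices and a finite set of open sets. The relation `bad j i` says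
that the `i`-th point lies in the `j`-th open set. -/
def Cnd {I J : Type u} (_bad : J → I → Prop) : Type u := Finset I × Finset J

instance {I J : Type u} (bad : J → I → Prop) : Preorder (Cnd bad) where
  le p q := q.1 ⊆ p.1 ∧ q.2 ⊆ p.2 ∧ ∀ i ∈ p.1, i ∉ q.1 → ∀ j ∈ q.2, ¬ bad j i
  le_refl p := ⟨Finset.Subset.refl _, Finset.Subset.refl _, fun i h1 h2 => absurd h1 h2⟩
  le_trans p q r h1 h2 := by
    refine ⟨h2.1.trans h1.1, h2.2.1.trans h1.2.1, ?_⟩
    intro i hi hir j hj
    by_cases hiq : i ∈ q.1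
    · exact h2.2.2 i hiq hir j hj
    · exact h1.2.2 i hi hiq j (h2.2.1 hj)

/-- The chain condition. -/
theorem cnd_ccc {Z : Type u} [TopologicalSpace Z] [CompactSpace Z]
    (hZ : ∀ m : ℕ, CountablyTight (Fin m → Z)) (I : Type u) [LinearOrder I]
    (hI1 : ∀ i : I, (Iio i).Countable) (J : Type u) (d : I → Z) (U C O : J → Set Z)
    (hUC : ∀ j, U j ⊆ C j) (hC : ∀ j, IsClosed (C j)) (hCO : ∀ j, C j ⊆ O j)
    (hO : ∀ j, IsOpen (O j)) (b : J → I) (hb : ∀ j i, b j < i → d i ∉ O j) :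
    CCC (Cnd (fun (j : J) (i : I) => d i ∈ U j)) := by
  classical
  intro 𝒜 hanti
  have hI : ∀ i : I, (Set.Iic i).Countable := by
    intro i
    refine ((hI1 i).union (countable_singleton i)).mono ?_
    intro j hj
    rcases lt_or_eq_of_le (mem_Iic.1 hj) with h | h
    · exact Or.inl h
    · exact Or.inr h
  by_contra hunc
  -- the first coordinates are different
  have hinj : Set.InjOn (fun p : Cnd (fun (j : J) (i : I) => d i ∈ U j) => p.1) 𝒜 := by
    intro p hp q hq hpq
    by_contra hne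
    refine hanti p hp q hq hne ⟨(p.1, p.2 ∪ q.2), ⟨Finset.Subset.refl _,
      Finset.subset_union_left, fun i h1 h2 => absurd h1 h2⟩, ?_⟩
    have hpq' : p.1 = q.1 := hpq
    refine ⟨?_, Finset.subset_union_right, ?_⟩
    · rw [hpq']
    · intro i h1 h2
      change i ∈ p.1 at h1
      rw [hpq'] at h1
      exact absurd h1 h2
  let A : Set (Finset I) := (fun p : Cnd (fun (j : J) (i : I) => d i ∈ U j) => p.1) '' 𝒜
  have hA : ¬ A.Countable := fun h => hunc (countable_of_injective_of_countable_image hinj h)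
  have hV : ∀ F ∈ A, ∃ V : Finset J, ((F, V) : Finset I × Finset J) ∈ 𝒜 := by
    rintro F ⟨⟨F', V⟩, hp, rfl⟩
    exact ⟨V, hp⟩
  choose! V hV using hV
  have hsize : ∃ n : ℕ, ¬ {F | F ∈ A ∧ F.card = n}.Countable := by
    by_contra hcon
    push Not at hcon
    apply hA
    have : A ⊆ ⋃ n : ℕ, {F | F ∈ A ∧ F.card = n} := by
      intro F hF
      rw [Set.mem_iUnion]
      exact ⟨F.card, hF, rfl⟩
    exact (Set.countable_iUnion hcon).mono this
  obtain ⟨n, hn⟩ := hsize
  obtain ⟨R, hR, hRmax⟩ := exists_root {F | F ∈ A ∧ F.card = n} n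
    (fun F hF => le_of_eq hF.2) hn
  set B : Set (Finset I) := {F | F ∈ {F | F ∈ A ∧ F.card = n} ∧ R ⊆ F} with hB
  have hBA : ∀ F ∈ B, F ∈ A := fun F hF => hF.1.1
  have hBR : ∀ F ∈ B, R ⊆ F := fun F hF => hF.2
  have hmeet : ∀ i : I, {F | F ∈ B ∧ ∃ j ∈ F \ R, j ≤ i}.Countable := by
    intro i
    have h1 : (⋃ j ∈ Set.Iic i, {F | F ∈ B ∧ j ∈ F \ R}).Countable := by
      refine (hI i).biUnion ?_
      intro j _
      by_cases hj : j ∈ R
      · have : {F | F ∈ B ∧ j ∈ F \ R} = ∅ := by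
          ext F
          constructor
          · rintro ⟨_, h⟩
            exact ((Finset.mem_sdiff.mp h).2 hj).elim
          · intro h
            exact h.elim
        rw [this]
        exact Set.countable_empty
      · refine (hRmax j hj).mono ?_
        rintro F ⟨hF, hjF⟩
        refine ⟨hF.1, ?_⟩
        intro k hk
        rcases Finset.mem_insert.mp hk with rfl | hk
        · exact (Finset.mem_sdiff.mp hjF).1
        · exact hF.2 hk
    refine h1.mono ?_
    rintro F ⟨hF, j, hj, hji⟩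
    rw [Set.mem_iUnion₂]
    exact ⟨j, hji, hF, hj⟩
  have hmeetC : ∀ C : Set I, C.Countable →
      {F | F ∈ B ∧ ∃ i ∈ C, ∃ j ∈ F \ R, j ≤ i}.Countable := by
    intro C hC
    have h1 : (⋃ i ∈ C, {F | F ∈ B ∧ ∃ j ∈ F \ R, j ≤ i}).Countable :=
      hC.biUnion (fun i _ => hmeet i)
    refine h1.mono ?_
    rintro F ⟨hF, i, hi, h⟩
    rw [Set.mem_iUnion₂]
    exact ⟨i, hi, hF, h⟩
  have henum : ∀ F : B, ∃ e : Fin (n - R.card) → I, ∀ j, j ∈ F.1 \ R ↔ ∃ k, e k = j := by
    intro F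
    have hcard : (F.1 \ R).card = n - R.card := by
      rw [Finset.card_sdiff_of_subset (hBR F.1 F.2), F.2.1.2]
    refine ⟨fun k => ((F.1 \ R).equivFin.symm (Fin.cast hcard.symm k)).1, ?_⟩
    intro j
    constructor
    · intro hj
      refine ⟨Fin.cast hcard ((F.1 \ R).equivFin ⟨j, hj⟩), ?_⟩
      simp
    · rintro ⟨k, rfl⟩
      exact ((F.1 \ R).equivFin.symm (Fin.cast hcard.symm k)).2
  choose e he using henum
  let x : B → (Fin (n - R.card) → Z) := fun F k => d (e F k)
  have hBunc : ¬ Countable B := by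
    intro h
    exact hR (Set.countable_coe_iff.mp h)
  obtain ⟨p, hp⟩ := exists_complete_acc x hBunc
  have hpO : ∀ j k, p k ∉ O j := by
    intro j k hmem
    have hopen : IsOpen {z : Fin (n - R.card) → Z | z k ∈ O j} :=
      (hO j).preimage (continuous_apply k)
    apply hp _ (hopen.mem_nhds hmem)
    have hc : {F : B | ∃ i ∈ F.1 \ R, i ≤ b j}.Countable := by
      have := (hmeet (b j)).preimage (f := fun F : B => F.1) Subtype.val_injective
      refine this.mono ?_
      intro F hF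
      exact ⟨F.2, hF⟩
    refine hc.mono ?_
    intro F hF
    refine ⟨e F k, (he F _).mpr ⟨k, rfl⟩, ?_⟩
    by_contra hlt
    push Not at hlt
    exact hb j _ hlt hF
  have hpcl : p ∈ closure (Set.range x) := by
    rw [mem_closure_iff_nhds]
    intro W hW
    have h1 := hp W hW
    have h2 : {t | x t ∈ W}.Nonempty := by
      rw [Set.nonempty_iff_ne_empty]
      intro h
      rw [h] at h1
      exact h1 Set.countable_empty
    obtain ⟨t, ht⟩ := h2
    exact ⟨x t, ht, t, rfl⟩
  obtain ⟨S, hSsub, hSc, hpS⟩ := hZ _ _ p hpcl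
  have hSx : ∀ z : S, ∃ F : B, x F = z.1 := fun z => hSsub z.2
  choose g hg using hSx
  have hSc' : Countable S := hSc.to_subtype
  let idx : Set I := (⋃ z : S, (((g z).1 : Finset I) : Set I)) ∪
    (⋃ z : S, b '' ((V (g z).1 : Finset J) : Set J))
  have hidx : idx.Countable := (Set.countable_iUnion (fun z => Finset.countable_toSet _)).union
    (Set.countable_iUnion (fun z => (Finset.countable_toSet _).image b))
  have hF' : ∃ F' : B, (∀ z : S, g z ≠ F') ∧ ¬ ∃ i ∈ idx, ∃ j ∈ F'.1 \ R, j ≤ i := by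
    by_contra hcon
    push Not at hcon
    apply hR
    have h1 := (hmeetC _ hidx).union ((Set.countable_range (fun z : S => (g z).1)))
    refine h1.mono ?_
    intro F hF
    by_cases h : ∃ z : S, (g z).1 = F
    · right
      exact h
    · left
      refine ⟨hF, ?_⟩
      refine hcon ⟨F, hF⟩ ?_
      intro z hz
      exact h ⟨z, by rw [hz]⟩
  obtain ⟨F', hF'1, hF'2⟩ := hF'
  -- the closed set
  have hclosed : IsClosed {z : Fin (n - R.card) → Z | ∃ j ∈ V F'.1, ∃ k, z k ∈ C j} := by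
    have : {z : Fin (n - R.card) → Z | ∃ j ∈ V F'.1, ∃ k, z k ∈ C j} =
        ⋃ j ∈ V F'.1, ⋃ k, {z | z k ∈ C j} := by
      ext z
      simp only [mem_ofPred_eq, mem_iUnion, exists_prop]
    rw [this]
    refine Set.Finite.isClosed_biUnion (Finset.finite_toSet _) (fun j _ => ?_)
    exact isClosed_iUnion_of_finite (fun k => (hC j).preimage (continuous_apply k))
  have hsub : S ⊆ {z : Fin (n - R.card) → Z | ∃ j ∈ V F'.1, ∃ k, z k ∈ C j} := by
    intro z hz
    have hne : (g ⟨z, hz⟩).1 ≠ F'.1 := fun h => hF'1 ⟨z, hz⟩ (Subtype.ext h)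
    set F : B := g ⟨z, hz⟩ with hFdef
    have hxF : x F = z := hg ⟨z, hz⟩
    have hin : ∀ i ∈ F'.1 \ R, ∀ j ∈ V F.1, d i ∉ U j := by
      intro i hi j hj hmem
      have hlt : b j < i := by
        by_contra hcon
        push Not at hcon
        apply hF'2
        refine ⟨b j, Or.inr ?_, i, hi, hcon⟩
        rw [Set.mem_iUnion]
        exact ⟨⟨z, hz⟩, j, hj, rfl⟩
      exact hb j i hlt (hCO j (hUC j hmem))
    have hinc := hanti _ (hV F.1 (hBA _ F.2)) _ (hV F'.1 (hBA _ F'.2)) (by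
      intro h
      exact hne (congrArg Prod.fst h))
    by_contra hz'
    apply hinc
    refine ⟨(F.1 ∪ F'.1, V F.1 ∪ V F'.1), ⟨Finset.subset_union_left, Finset.subset_union_left,
      ?_⟩, ⟨Finset.subset_union_right, Finset.subset_union_right, ?_⟩⟩
    · intro i hi hiF j hj
      change i ∈ F.1 ∪ F'.1 at hi
      rcases Finset.mem_union.1 hi with hi | hi
      · exact absurd hi hiF
      · exact hin i (Finset.mem_sdiff.2 ⟨hi, fun h => hiF (hBR _ F.2 h)⟩) j hj
    · intro i hi hiF j hj hmem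
      change i ∈ F.1 ∪ F'.1 at hi
      rcases Finset.mem_union.1 hi with hi | hi
      · have hiR : i ∈ F.1 \ R := Finset.mem_sdiff.2 ⟨hi, fun h => hiF (hBR _ F'.2 h)⟩
        obtain ⟨k, hk⟩ := (he F i).1 hiR
        apply hz'
        refine ⟨j, hj, k, ?_⟩
        rw [← hxF]
        change d (e F k) ∈ C j
        rw [hk]
        exact hUC j hmem
      · exact absurd hi hiF
  obtain ⟨j, -, k, hpk⟩ := closure_minimal hsub hclosed hpS
  exact hpO j k (hCO j hpk)

/-- The combinatorial core: an uncountable subsequence meeting each `U j` in a finite set. -/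
theorem exists_thin (hMA : MAω₁.{u}) {Z : Type u} [TopologicalSpace Z] [CompactSpace Z]
    (hZ : ∀ m : ℕ, CountablyTight (Fin m → Z)) (I : Type u) [LinearOrder I]
    (hI1 : ∀ i : I, (Iio i).Countable) (hI2 : ¬ Countable I)
    (J : Type u) (hIJ : Cardinal.mk (I ⊕ J) ≤ Cardinal.aleph 1) (d : I → Z) (U C O : J → Set Z)
    (hUC : ∀ j, U j ⊆ C j) (hC : ∀ j, IsClosed (C j)) (hCO : ∀ j, C j ⊆ O j)
    (hO : ∀ j, IsOpen (O j)) (b : J → I) (hb : ∀ j i, b j < i → d i ∉ O j) :
    ∃ E : Set I, ¬ E.Countable ∧ ∀ j, {i | i ∈ E ∧ d i ∈ U j}.Finite := by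
  classical
  let bad : J → I → Prop := fun (j : J) (i : I) => d i ∈ U j
  have hne : Nonempty (Cnd bad) := ⟨((∅, ∅) : Finset I × Finset J)⟩
  let D : I ⊕ J → Set (Cnd bad) := fun s => match s with
    | Sum.inl i => {p | ∃ i' ∈ p.1, i ≤ i'}
    | Sum.inr j => {p | j ∈ p.2}
  obtain ⟨G, hG, hGD⟩ := hMA (Cnd bad) (cnd_ccc hZ I hI1 J d U C O hUC hC hCO hO b hb)
    (range D) (Cardinal.mk_range_le.trans hIJ) (by
    rintro _ ⟨s, rfl⟩ p
    rcases s with i | j
    · obtain ⟨i', hi'⟩ := exists_upper hI1 hI2 (insert i ((p.2 : Set J).image b))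
        (((Finset.countable_toSet _).image b).insert i)
      refine ⟨((insert i' p.1, p.2) : Finset I × Finset J), ?_, ?_⟩
      · exact ⟨i', Finset.mem_insert_self _ _, (hi' i (mem_insert _ _)).le⟩
      · refine ⟨Finset.subset_insert _ _, Finset.Subset.refl _, ?_⟩
        intro k hk hkp j hj hmem
        change k ∈ insert i' p.1 at hk
        rcases Finset.mem_insert.1 hk with rfl | hk
        · exact hb j k (hi' _ (mem_insert_of_mem _ ⟨j, hj, rfl⟩)) (hCO j (hUC j hmem))
        · exact absurd hk hkp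
    · refine ⟨((p.1, insert j p.2) : Finset I × Finset J), Finset.mem_insert_self _ _, ?_⟩
      exact ⟨Finset.Subset.refl _, Finset.subset_insert _ _, fun i h1 h2 => absurd h1 h2⟩)
  refine ⟨{i | ∃ p ∈ G, i ∈ p.1}, ?_, ?_⟩
  · intro hc
    obtain ⟨α, hα⟩ := exists_upper hI1 hI2 _ hc
    obtain ⟨p, hpG, i', hi', hle⟩ := hGD _ ⟨Sum.inl α, rfl⟩
    exact absurd (hα i' ⟨p, hpG, hi'⟩) (not_lt.2 hle)
  · intro j
    obtain ⟨p, hpG, hj⟩ := hGD _ ⟨Sum.inr j, rfl⟩
    refine (Finset.finite_toSet p.1).subset ?_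
    rintro i ⟨⟨q, hqG, hiq⟩, hmem⟩
    obtain ⟨r, hrG, hrp, hrq⟩ := hG.directed p hpG q hqG
    by_contra hip
    exact hrp.2.2 i (hrq.1 hiq) hip j hj hmem

end Pool.Agent.Sokolov
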