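import Pool.Agent.Sokolov.Basic

/-! # Sokolov compact spaces are countably tight -/

universe u

open Set Topology

namespace Pool.Agent.Sokolov

open Pool.Agent.CpFU

/-- The index set `ω₁`. -/
theorem exists_omega_one : ∃ (I : Type u) (_ : LinearOrder I) (_ : WellFoundedLT I),
    (∀ i : I, (Iio i).Countable) ∧ ¬ Countable I ∧ Cardinal.mk I = Cardinal.aleph 1 := by
  refine ⟨(Cardinal.aleph.{u} 1).ord.ToType, inferInstance, inferInstance, ?_, ?_, ?_⟩
  · intro i
    have h1 : Cardinal.mk (Iio i) < Cardinal.aleph 1 := by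
      have := Cardinal.mk_Iio_lt i (by simp)
      simpa using this
    have h2 : Order.succ Cardinal.aleph0.{u} = Cardinal.aleph 1 := by
      rw [← Cardinal.aleph_zero, Cardinal.succ_aleph]
      simp
    have h3 : Cardinal.mk (Iio i) ≤ Cardinal.aleph0 := by
      by_contra hcon
      push Not at hcon
      have h4 := Order.succ_le_iff.2 hcon
      rw [h2] at h4
      exact absurd h1 (not_lt.2 h4)
    exact Cardinal.le_aleph0_iff_set_countable.1 h3
  · rw [← Cardinal.mk_le_aleph0_iff, not_le]
    simp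
  · simp

theorem exists_upper {I : Type u} [LinearOrder I] (hI1 : ∀ i : I, (Iio i).Countable)
    (hI2 : ¬ Countable I) (A : Set I) (hA : A.Countable) : ∃ i : I, ∀ a ∈ A, a < i := by
  by_contra hcon
  push Not at hcon
  apply hI2
  rw [← countable_univ_iff]
  refine (hA.biUnion (fun a _ => (hI1 a).union (countable_singleton a))).mono ?_
  intro i _
  obtain ⟨a, ha, hai⟩ := hcon i
  refine mem_iUnion₂.2 ⟨a, ha, ?_⟩
  rcases lt_or_eq_of_le hai with h | h
  · exact Or.inl h
  · exact Or.inr h

variable {X : Type u} [TopologicalSpace X] [CompactSpace X] [T2Space X]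

theorem exists_free {L : Set X} (hL : OmClosed L) {xs : X} (hxs : xs ∈ closure L)
    (hxs' : xs ∉ L) (I : Type u) [LinearOrder I] [WellFoundedLT I]
    (hI1 : ∀ i : I, (Iio i).Countable) :
    ∃ (x : I → X) (h : I → X → ℝ), (∀ i, Continuous (h i)) ∧ (∀ i j, j < i → h i (x j) = 0) ∧
      ∀ i j, i ≤ j → h i (x j) = 1 := by
  let T : Type u := {t : X × (X → ℝ) // t.1 ∈ L ∧ Continuous t.2 ∧ (∀ᶠ z in 𝓝 xs, t.2 z = 1) ∧
    t.2 t.1 = 1}
  obtain ⟨t, ht⟩ := exists_rec (T := T) (fun s t => t.1.2 s.1.1 = 0 ∧ s.1.2 t.1.1 = 1) (by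
    intro N hN
    have h1 : closure ((fun s : T => s.1.1) '' N) ⊆ L := by
      apply hL _ _ (hN.image _)
      rintro _ ⟨s, -, rfl⟩
      exact s.2.1
    have h2 : xs ∉ closure ((fun s : T => s.1.1) '' N) := fun h => hxs' (h1 h)
    have h3 : (closure ((fun s : T => s.1.1) '' N))ᶜ ∈ 𝓝 xs :=
      isClosed_closure.isOpen_compl.mem_nhds h2
    obtain ⟨U, hU, hUc, hUs⟩ := exists_mem_nhds_isClosed_subset h3
    have hd : Disjoint (closure ((fun s : T => s.1.1) '' N)) U := by
      rw [Set.disjoint_left]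
      exact fun z hz hzU => hUs hzU hz
    obtain ⟨h, hh0, hh1, -⟩ := exists_continuous_zero_one_of_isClosed isClosed_closure hUc hd
    -- the countable set of functions
    have hx : ∃ x ∈ L, h x = 1 ∧ ∀ s ∈ N, s.1.2 x = 1 := by
      let 𝒢 : Set (X → ℝ) := insert (h : X → ℝ) ((fun s : T => s.1.2) '' N)
      have h𝒢 : 𝒢.Countable := (hN.image _).insert _
      have h𝒢1 : ∀ g ∈ 𝒢, Continuous g ∧ ∀ᶠ z in 𝓝 xs, g z = 1 := by
        rintro g (rfl | ⟨s, -, rfl⟩)
        · exact ⟨h.continuous, Filter.eventually_of_mem hU (fun z hz => hh1 hz)⟩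
        · exact ⟨s.2.2.1, s.2.2.2.1⟩
      obtain ⟨e, he⟩ := h𝒢.exists_eq_range ⟨_, mem_insert _ _⟩
      have h4 : (⋂ n, (L ∩ {z | e n z = 1})).Nonempty := by
        apply Pool.Agent.CpFU.inter_nonempty
        · intro n
          apply hL.inter
          intro E hE _
          have hcont := (h𝒢1 (e n) (he ▸ ⟨n, rfl⟩)).1
          exact closure_minimal hE (isClosed_eq hcont continuous_const)
        · intro n
          have h5 : ∀ᶠ z in 𝓝 xs, ∀ k ∈ Finset.range (n + 1), e k z = 1 := by
            rw [Filter.eventually_all_finset]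
            intro k _
            exact (h𝒢1 (e k) (he ▸ ⟨k, rfl⟩)).2
          obtain ⟨z, hz1, hz2⟩ := mem_closure_iff_nhds.1 hxs _ h5
          refine ⟨z, mem_iInter₂.2 (fun k hk => ⟨hz2, hz1 k ?_⟩)⟩
          exact Finset.mem_range.2 (Nat.lt_succ_of_le hk)
      obtain ⟨z, hz⟩ := h4
      have hz' : ∀ n, z ∈ L ∧ e n z = 1 := fun n => mem_iInter.1 hz n
      have hz'' : ∀ g ∈ 𝒢, g z = 1 := by
        intro g hg
        rw [he] at hg
        obtain ⟨n, rfl⟩ := hg
        exact (hz' n).2
      exact ⟨z, (hz' 0).1, hz'' _ (mem_insert _ _), fun s hs =>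
        hz'' _ (mem_insert_of_mem _ ⟨s, hs, rfl⟩)⟩
    obtain ⟨x, hxL, hx1, hx2⟩ := hx
    refine ⟨⟨(x, h), hxL, h.continuous, Filter.eventually_of_mem hU (fun z hz => hh1 hz), hx1⟩, ?_⟩
    intro s hs
    exact ⟨hh0 (subset_closure ⟨s, hs, rfl⟩), hx2 s hs⟩) I hI1
  refine ⟨fun i => (t i).1.1, fun i => (t i).1.2, fun i => (t i).2.2.1, ?_, ?_⟩
  · intro i j hji
    exact (ht j i hji).1
  · intro i j hij
    rcases lt_or_eq_of_le hij with h | h
    · exact (ht i j h).2
    · subst h
      exact (t i).2.2.2.2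

theorem IsSokolov.countablyTight (hX : IsSokolov X) : CountablyTight X := by
  classical
  by_contra hK
  obtain ⟨L, hL, xs, hxs, hxs'⟩ : ∃ L : Set X, OmClosed L ∧ ∃ xs, xs ∈ closure L ∧ xs ∉ L := by
    by_contra hcon
    push Not at hcon
    apply hK
    intro A x hx
    exact hcon (omcl A) (omcl_closed A) x (closure_mono (sub_omcl A) hx)
  obtain ⟨I, _, _, hI1, hI2, -⟩ := exists_omega_one.{u}
  obtain ⟨x, h, hc, h0, h1⟩ := exists_free hL hxs hxs' I hI1
  -- the closed sets to be preserved
  let X' : Set X := closure (range x)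
  have hval : ∀ i, ∀ z ∈ X', h i z = 0 ∨ h i z = 1 := by
    intro i z hz
    have hcl : IsClosed {z | h i z = 0 ∨ h i z = 1} :=
      (isClosed_eq (hc i) continuous_const).union (isClosed_eq (hc i) continuous_const)
    refine closure_minimal ?_ hcl hz
    rintro _ ⟨j, rfl⟩
    rcases lt_or_ge j i with hji | hij
    · exact Or.inl (h0 i j hji)
    · exact Or.inr (h1 i j hij)
  have hmono : ∀ i j, i ≤ j → ∀ z ∈ X', h j z ≤ h i z := by
    intro i j hij z hz
    have hcl : IsClosed {z | h j z ≤ h i z} := isClosed_le (hc j) (hc i)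
    refine closure_minimal ?_ hcl hz
    rintro _ ⟨k, rfl⟩
    rcases lt_or_ge k i with hki | hik
    · change h j (x k) ≤ h i (x k)
      rw [h0 i k hki, h0 j k (hki.trans_le hij)]
    · change h j (x k) ≤ h i (x k)
      rw [h1 i k hik]
      rcases lt_or_ge k j with hkj | hjk
      · rw [h0 j k hkj]; norm_num
      · rw [h1 j k hjk]
  let P : Set X := {z | ∀ i, h i z = 1}
  let B : Set X := {z | z ∈ X' ∧ ∀ i j, i < j → h j z = 0}
  let S : Set (X × X) := {p | p.1 ∈ X' ∧ p.2 ∈ X' ∧ ∀ i j, i < j → h j p.1 ≤ h i p.2}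
  have hPc : IsClosed P := by
    simp only [P, ofPred_forall]
    exact isClosed_iInter (fun i => isClosed_eq (hc i) continuous_const)
  have hBc : IsClosed B := by
    have : B = X' ∩ ⋂ i, ⋂ j, ⋂ (_ : i < j), {z | h j z = 0} := by
      ext z
      simp only [B, mem_ofPred_eq, mem_inter_iff, mem_iInter]
    rw [this]
    exact isClosed_closure.inter (isClosed_iInter fun i => isClosed_iInter fun j =>
      isClosed_iInter fun _ => isClosed_eq (hc j) continuous_const)
  have hSc : IsClosed S := by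
    have : S = (Prod.fst ⁻¹' X') ∩ ((Prod.snd ⁻¹' X') ∩
        ⋂ i, ⋂ j, ⋂ (_ : i < j), {p : X × X | h j p.1 ≤ h i p.2}) := by
      ext p
      simp only [S, mem_ofPred_eq, mem_inter_iff, mem_iInter, mem_preimage]
    rw [this]
    exact (isClosed_closure.preimage continuous_fst).inter
      ((isClosed_closure.preimage continuous_snd).inter (isClosed_iInter fun i =>
        isClosed_iInter fun j => isClosed_iInter fun _ =>
          isClosed_le ((hc j).comp continuous_fst) ((hc i).comp continuous_snd)))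
  obtain ⟨f, hf, hfn, hfE⟩ := hX.two {Prod.fst ⁻¹' X', Prod.fst ⁻¹' P, Prod.fst ⁻¹' B, S}
    (Set.Finite.countable (by simp)) (by
    rintro E (rfl | rfl | rfl | rfl)
    · exact isClosed_closure.preimage continuous_fst
    · exact hPc.preimage continuous_fst
    · exact hBc.preimage continuous_fst
    · exact hSc)
  have hfX' : ∀ z ∈ X', f z ∈ X' := fun z hz => hfE _ (Or.inl rfl) z z hz
  have hfP : ∀ z ∈ P, f z ∈ P := fun z hz => hfE _ (Or.inr (Or.inl rfl)) z z hz
  have hfB : ∀ z ∈ B, f z ∈ B := fun z hz => hfE _ (Or.inr (Or.inr (Or.inl rfl))) z z hz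
  have hfS : ∀ a b, (a, b) ∈ S → (f a, f b) ∈ S := fun a b hab =>
    hfE _ (Or.inr (Or.inr (Or.inr rfl))) a b hab
  -- levels do not increase
  have key : ∀ γ : I, ∀ β, γ < β → h β (f (x γ)) = 0 := by
    intro γ
    induction γ using WellFoundedLT.induction with
    | _ γ ih =>
      intro β hγβ
      by_cases hmin : ∃ δ, δ < γ
      · obtain ⟨δ₀, hδ₀⟩ := hmin
        -- a cluster point of the `x δ`, `δ < γ`
        have hne : (⋂ δ : {δ // δ < γ}, closure (x '' {ε | δ.1 ≤ ε ∧ ε < γ})).Nonempty := by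
          have : Nonempty {δ // δ < γ} := ⟨⟨δ₀, hδ₀⟩⟩
          apply IsCompact.nonempty_iInter_of_directed_nonempty_isCompact_isClosed
          · intro a b
            rcases le_total a.1 b.1 with hab | hab
            · exact ⟨b, closure_mono (image_mono (fun ε hε => ⟨hab.trans hε.1, hε.2⟩)), Subset.rfl⟩
            · exact ⟨a, Subset.rfl, closure_mono (image_mono (fun ε hε => ⟨hab.trans hε.1, hε.2⟩))⟩
          · intro a
            exact ⟨x a.1, subset_closure ⟨a.1, ⟨le_rfl, a.2⟩, rfl⟩⟩
          · intro a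
            exact isClosed_closure.isCompact
          · intro a
            exact isClosed_closure
        obtain ⟨y, hy⟩ := hne
        have hy' : ∀ δ, δ < γ → y ∈ closure (x '' {ε | δ ≤ ε ∧ ε < γ}) := fun δ hδ =>
          mem_iInter.1 hy ⟨δ, hδ⟩
        have hyX' : y ∈ X' := closure_mono (image_subset_range _ _) (hy' δ₀ hδ₀)
        have hS : (x γ, y) ∈ S := by
          refine ⟨subset_closure ⟨γ, rfl⟩, hyX', ?_⟩
          intro α β' hαβ
          rcases lt_or_ge γ β' with hγβ' | hβγ
          · change h β' (x γ) ≤ h α y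
            rw [h0 β' γ hγβ']
            rcases hval α y hyX' with hv | hv <;> rw [hv]
            norm_num
          · have hαγ : α < γ := hαβ.trans_le hβγ
            have h2 : h α y = 1 := by
              have hcl : IsClosed {z | h α z = 1} := isClosed_eq (hc α) continuous_const
              refine closure_minimal ?_ hcl (hy' α hαγ)
              rintro _ ⟨ε, hε, rfl⟩
              exact h1 α ε hε.1
            change h β' (x γ) ≤ h α y
            rw [h2, h1 β' γ hβγ]
        have hS' := (hfS _ _ hS).2.2 γ β hγβ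
        have h3 : h γ (f y) = 0 := by
          have hcl : IsClosed {z | h γ (f z) = 0} :=
            isClosed_eq ((hc γ).comp hf) continuous_const
          refine closure_minimal ?_ hcl (hy' δ₀ hδ₀)
          rintro _ ⟨ε, hε, rfl⟩
          exact ih ε hε.2 γ hε.2
        change h β (f (x γ)) ≤ h γ (f y) at hS'
        rw [h3] at hS'
        rcases hval β (f (x γ)) (hfX' _ (subset_closure ⟨γ, rfl⟩)) with hv | hv
        · exact hv
        · rw [hv] at hS'; norm_num at hS'
      · push Not at hmin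
        have hB : x γ ∈ B := by
          refine ⟨subset_closure ⟨γ, rfl⟩, ?_⟩
          intro i j hij
          exact h0 j γ ((hmin i).trans_lt hij)
        exact (hfB _ hB).2 γ β hγβ
  -- the limit point
  have hIne : Nonempty I := by
    by_contra hcon
    rw [not_nonempty_iff] at hcon
    exact hI2 inferInstance
  have hne : (⋂ δ : I, closure (x '' {ε | δ ≤ ε})).Nonempty := by
    apply IsCompact.nonempty_iInter_of_directed_nonempty_isCompact_isClosed
    · intro a b
      rcases le_total a b with hab | hab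
      · exact ⟨b, closure_mono (image_mono (fun ε hε => hab.trans hε)), Subset.rfl⟩
      · exact ⟨a, Subset.rfl, closure_mono (image_mono (fun ε hε => hab.trans hε))⟩
    · intro a
      exact ⟨x a, subset_closure ⟨a, le_rfl, rfl⟩⟩
    · intro a
      exact isClosed_closure.isCompact
    · intro a
      exact isClosed_closure
  obtain ⟨p, hp⟩ := hne
  have hp' : ∀ δ, p ∈ closure (x '' {ε | δ ≤ ε}) := fun δ => mem_iInter.1 hp δ
  have hpP : p ∈ P := by
    intro i
    have hcl : IsClosed {z | h i z = 1} := isClosed_eq (hc i) continuous_const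
    refine closure_minimal ?_ hcl (hp' i)
    rintro _ ⟨ε, hε, rfl⟩
    exact h1 i ε hε
  obtain ⟨D, hD, hDc, hDd⟩ := exists_dense (range f) hfn (range (fun i => f (x i))) (by
    rintro _ ⟨i, rfl⟩
    exact ⟨x i, rfl⟩)
  have hD' : ∀ d ∈ D, ∃ i, f (x i) = d := fun d hd => hD hd
  choose! ι hι using hD'
  obtain ⟨α, hα⟩ := exists_upper hI1 hI2 (ι '' D) (hDc.image ι)
  have hfp : f p ∈ closure D := by
    have h2 : f p ∈ closure (range (fun i => f (x i))) := by
      obtain ⟨i₀⟩ := hIne
      have h3 : f p ∈ f '' closure (x '' {ε | i₀ ≤ ε}) := ⟨p, hp' i₀, rfl⟩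
      have h4 := image_closure_subset_closure_image hf h3
      refine closure_mono ?_ h4
      rintro _ ⟨_, ⟨ε, -, rfl⟩, rfl⟩
      exact ⟨ε, rfl⟩
    exact closure_minimal hDd isClosed_closure h2
  have h5 : h α (f p) = 0 := by
    have hcl : IsClosed {z | h α z = 0} := isClosed_eq (hc α) continuous_const
    refine closure_minimal ?_ hcl hfp
    intro d hd
    change h α d = 0
    rw [← hι d hd]
    exact key _ _ (hα _ ⟨d, hd, rfl⟩)
  have h6 : h α (f p) = 1 := hfP p hpP α
  rw [h5] at h6
  norm_num at h6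

end Pool.Agent.Sokolov
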